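import Pool.Agent.PellSC.Final1

set_option autoImplicit false

open Pool.Agent.PellSC.Stmt

/-- **Q1.** For every prime `p ≡ 1, 3 (mod 8)` and all integers `x, y` with `p = x² + 2y²` and
`x ≡ 1` or `3 (mod 8)` one has `S_0(p) ≡ (-1)^{(x-1)/2} (4x - p/x) (mod p²)`. -/
theorem Pool.Agent.Results.MP_a989c0_nt.CongruenceS0.result :
    ∀ p : ℕ, p.Prime → (p % 8 = 1 ∨ p % 8 = 3) →
      ∀ x y : ℤ, (p : ℤ) = x ^ 2 + 2 * y ^ 2 → (x % 8 = 1 ∨ x % 8 = 3) →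
        CongrSq p (S0 p) ((-1) ^ ((x - 1) / 2) * (4 * x - p / x)) :=
  fun p hp h8 x y hxy hx => Pool.Agent.PellSC.Q1 p hp h8 x y hxy hx
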