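import Mathlib
import Pool.Agent.Pell.Final

set_option autoImplicit false

/-!
# The Pell-companion supercongruence for `S_1(p)` (question Q2)

For every prime `p = x² + 2y²` with `x ≡ 1` or `3 (mod 8)`:
`S_1(p) ≡ 0 (mod p²)` if `p ≡ 1 (mod 8)`, and
`S_1(p) ≡ (-1)^((p-3)/8) 2 (x + p/x) (mod p²)` if `p ≡ 3 (mod 8)`.
-/

namespace Pool.Agent.Results.MP_a989c0_nt.PellSumOne

open Pool.Agent.Pell

/-- Full positive answer to Q2. -/
theorem result (p : ℕ) (hp : p.Prime) (x y : ℤ)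
    (hxy : (p : ℤ) = x ^ 2 + 2 * y ^ 2) (hx : x % 8 = 1 ∨ x % 8 = 3) :
    (p % 8 = 1 → CongrModSq p (S1 p) 0) ∧
      (p % 8 = 3 → CongrModSq p (S1 p) ((-1) ^ ((p - 3) / 8) * (2 * (x + p / x)))) :=
  Q2_final p hp x y hxy hx

end Pool.Agent.Results.MP_a989c0_nt.PellSumOne
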